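import Pool.Agent.MVD.StmtsLoc

/-!
# Squad MVD (MP_23468a_al), row CPW: large powers are central, periodicity of the powers
-/

set_option autoImplicit false

namespace Pool.Agent.MVD.H45

open Pool.Agent.Helper14_MV Pool.Agent.Helper2_MV Pool.Agent.MVD

theorem ofList_rep (m a : ℕ) :
    FreeMonoid.ofList (List.replicate m a) = (FreeMonoid.of a : FreeMonoid ℕ) ^ m := by
  induction m with
  | zero => rfl
  | succ m ih => rw [List.replicate_succ, pow_succ', ← ih]; rfl

theorem flatMap_rep (g : ℕ → List ℕ) (m a y : ℕ) (h : g a = [y]) :
    (List.replicate m a).flatMap g = List.replicate m y := by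
  induction m with
  | zero => rfl
  | succ m ih => rw [List.replicate_succ, List.flatMap_cons, ih, h, List.replicate_succ]; rfl

/-- Row CPW. -/
theorem cpw : CpwStmt := by
  constructor
  · intro β hm h2
    have h2' : ∀ w : Word, β.r (lx ^ 2) w → w = lx ^ 2 := by
      intro w hw
      have e1 : FreeMonoid.ofList [0, 0] = (lx ^ 2 : Word) := ofList_rep 2 0
      have h3 : RR β [0, 0] w.toList := by
        unfold RR
        rw [e1, FreeMonoid.ofList_toList]
        exact hw
      have h4 := congrArg FreeMonoid.ofList (h2 _ h3)
      rw [FreeMonoid.ofList_toList, e1] at h4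
      exact h4
    obtain ⟨k, -, hk⟩ := Pool.Agent.Helper14_MV.B2 hm h2'
    refine ⟨k, fun m hkm p A q y => ?_⟩
    have h5 : RR β (List.replicate m 0 ++ [1]) ([1] ++ List.replicate m 0) := by
      unfold RR
      rw [FreeMonoid.ofList_append, FreeMonoid.ofList_append, ofList_rep]
      exact hk m hkm
    have h6 := h5.sub (fun c => if c = 0 then [y] else A)
    rw [List.flatMap_append, List.flatMap_append, flatMap_rep _ m 0 y (by simp)] at h6
    have e2 : ([1] : List ℕ).flatMap (fun c => if c = 0 then [y] else A) = A := by simp
    rw [e2] at h6
    have h7 := ((RR.refl (β := β) p).append h6).append (RR.refl q)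
    simpa [List.append_assoc] using h7
  · intro β N hN hr m j hm
    have step : ∀ M, 3 ≤ M → RR β (List.replicate M 0) (List.replicate (M + (N - 3)) 0) := by
      intro M hM
      have h1 := hr.append (RR.refl (List.replicate (M - 3) 0))
      rw [List.replicate_append_replicate, List.replicate_append_replicate] at h1
      have e1 : 3 + (M - 3) = M := by omega
      have e2 : N + (M - 3) = M + (N - 3) := by omega
      rwa [e1, e2] at h1
    induction j with
    | zero => simpa using RR.refl (List.replicate m 0)
    | succ j ih =>
      have h1 := step (m + j * (N - 3)) (by omega)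
      have e1 : m + (j + 1) * (N - 3) = m + j * (N - 3) + (N - 3) := by ring
      rw [e1]
      exact β.trans ih h1

end Pool.Agent.MVD.H45
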